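import Pool.Agent.Lib.helper18.Blas3

namespace Pool.Agent.Results.MP_c109b8_an.Singular
open Complex Metric Set Filter Topology H18Blas

noncomputable def u (z : ℂ) : ℂ := z * Sf z + 1 / 8 * (1 - z)

def Z : Set ℂ := {z | z ∈ ball (0:ℂ) 1 ∧ u z = 0}

noncomputable def t (n : ℕ) : ℂ := ((1 - (1 / 2 : ℝ) ^ n : ℝ) : ℂ)

lemma t_norm (n : ℕ) : ‖t n‖ = 1 - (1 / 2 : ℝ) ^ n := by
  have : (1 / 2 : ℝ) ^ n ≤ 1 := pow_le_one₀ (by norm_num) (by norm_num)
  rw [t, Complex.norm_real, Real.norm_of_nonneg (by linarith)]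

lemma t_mem (n : ℕ) : t n ∈ ball (0:ℂ) 1 := by
  have : 0 < (1 / 2 : ℝ) ^ n := by positivity
  simp only [mem_ball, dist_zero_right, t_norm]; linarith

lemma t_inj : Function.Injective t := by
  intro m n h
  have := congrArg norm h
  rw [t_norm, t_norm] at this
  exact pow_right_injective₀ (a := (1 / 2 : ℝ)) (by norm_num) (by norm_num) (by simpa using this)

lemma W_mem {w : ℂ} (hw : w ∈ Z ∪ range t) : w ∈ ball (0:ℂ) 1 := by
  rcases hw with h | ⟨n, rfl⟩
  exacts [h.1, t_mem n]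

lemma sumZ : Summable (fun z : Z => 1 - ‖(z : ℂ)‖) := by
  refine summable_zeros (M := 2) (f := u) ?_ ?_ (by simp [u])
  · exact (differentiableOn_id.mul Sf_diff).add (by fun_prop)
  · intro z hz
    have h1 : ‖z‖ < 1 := by simpa using hz
    have h2 := Sf_le hz
    have h3 := norm_add_le (z * Sf z) (1 / 8 * (1 - z))
    have h4 := norm_sub_le 1 z
    rw [norm_mul, norm_mul] at h3
    have h5 : ‖(1 / 8 : ℂ)‖ = 1 / 8 := by simp
    rw [h5] at h3; rw [norm_one] at h4
    unfold u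
    nlinarith [norm_nonneg z, norm_nonneg (Sf z)]

lemma sumT : Summable (fun z : range t => 1 - ‖(z : ℂ)‖) := by
  rw [← (Equiv.ofInjective t t_inj).summable_iff]
  refine (summable_geometric_two).congr fun n => ?_
  simp [t_norm]

lemma sumW : Summable (fun z : ↥(Z ∪ range t) => 1 - ‖(z : ℂ)‖) := by
  have h1 := (summable_subtype_iff_indicator (f := fun z : ℂ => 1 - ‖z‖)).1 sumZ
  have h2 := (summable_subtype_iff_indicator (f := fun z : ℂ => 1 - ‖z‖)).1 sumT
  refine (summable_subtype_iff_indicator (f := fun z : ℂ => 1 - ‖z‖)).2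
    (Summable.of_nonneg_of_le ?_ ?_ (h1.add h2))
  · intro w
    apply indicator_nonneg
    intro w hw
    have : ‖w‖ < 1 := by simpa using W_mem hw
    linarith
  · intro w
    by_cases hw : w ∈ Z ∪ range t
    · have : ‖w‖ < 1 := by simpa using W_mem hw
      rw [indicator_of_mem hw]
      by_cases a : w ∈ Z <;> by_cases b : w ∈ range t <;> simp [a, b]
      · linarith
      · rcases hw with h | h <;> contradiction
    · have a : w ∉ Z := fun h => hw (Or.inl h)
      have b : w ∉ range t := fun h => hw (Or.inr h)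
      rw [indicator_of_notMem hw, indicator_of_notMem a, indicator_of_notMem b]; simp

lemma small {w : ℂ} (hw : w ∈ Z ∪ range t) (h : 1 / 2 ≤ ‖w‖) : ‖Sf w‖ ^ 2 ≤ 1 - ‖w‖ := by
  have hb := W_mem hw
  have h1 : ‖w‖ < 1 := by simpa using hb
  have hx := phi_pos hb
  have hS : ‖Sf w‖ * (1 + (phi w).re) ≤ 1 := by
    rw [Sf, Complex.norm_exp, neg_re, Real.exp_neg, inv_mul_le_iff₀ (Real.exp_pos _)]
    have := Real.add_one_le_exp (phi w).re; linarith
  have hS' : 1 - (phi w).re ≤ ‖Sf w‖ := by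
    rw [Sf, Complex.norm_exp, neg_re]
    have := Real.add_one_le_exp (-(phi w).re); linarith
  have hp := norm_pos_iff.2 (one_sub_ne hb)
  have hre : (phi w).re * ‖1 - w‖ ^ 2 = 1 - ‖w‖ ^ 2 := by rw [phi_re]; field_simp
  have hn := norm_nonneg (Sf w)
  rcases hw with ⟨-, h0⟩ | ⟨n, rfl⟩
  · have e : w * Sf w = -(1 / 8) * (1 - w) := by unfold u at h0; linear_combination h0
    have e2 := congrArg norm e
    rw [norm_mul, norm_mul] at e2
    have h5 : ‖(-(1 / 8) : ℂ)‖ = 1 / 8 := by simp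
    rw [h5] at e2
    have h4 := norm_sub_le 1 w
    rw [norm_one] at h4
    have h6 : ‖Sf w‖ ≤ 1 / 4 * ‖1 - w‖ := by nlinarith
    have h7 : 1 / 2 ≤ (phi w).re := by linarith
    have h8 : ‖Sf w‖ ^ 2 ≤ (1 / 4 * ‖1 - w‖) ^ 2 := by gcongr
    nlinarith [mul_le_mul_of_nonneg_right h7 (sq_nonneg ‖1 - w‖)]
  · have e : ‖1 - t n‖ = 1 - ‖t n‖ := by
      rw [t_norm, t]; push_cast; simp
    rw [e] at hre
    have h6 : (phi (t n)).re * (1 - ‖t n‖) = 1 + ‖t n‖ := by
      apply mul_right_cancel₀ (b := 1 - ‖t n‖) (by linarith); linarith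
    have h7 := Sf_le hb
    nlinarith [mul_le_mul_of_nonneg_right hS (by linarith : 0 ≤ 1 - ‖t n‖)]

theorem result : ∃ (f : ℂ → ℂ) (z : ℕ → ℂ), Hinf f ∧ BSeq z ∧
    Tendsto (fun n => f (z n)) atTop (𝓝 0) ∧
    ∃ g, MinInterp f z g ∧ (∀ g', MinInterp f z g' → EqOn g' g (ball 0 1)) ∧
      ¬ ∃ (c : ℂ) (B : ℂ → ℂ), IsBlaschke B ∧ ∀ w ∈ ball (0 : ℂ) 1, g w = c * B w := by
  have hc : Countable ↥(Z ∪ range t) := by
    have := sumW.countable_support
    rw [← Set.countable_univ_iff]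
    refine this.mono fun w _ => ?_
    have : ‖(w : ℂ)‖ < 1 := by simpa using W_mem w.2
    simp only [Function.mem_support]; linarith
  have hi : Infinite ↥(Z ∪ range t) :=
    ((infinite_range_of_injective t_inj).mono subset_union_right).to_subtype
  obtain ⟨d⟩ := nonempty_denumerable ↥(Z ∪ range t)
  obtain ⟨e⟩ : Nonempty (ℕ ≃ ↥(Z ∪ range t)) := ⟨(Denumerable.eqv _).symm⟩
  have hs : Summable fun n => 1 - ‖(e n : ℂ)‖ := sumW.comp_injective e.injective
  refine ⟨Sf, fun n => e n, Sf_hinf, ⟨fun n => W_mem (e n).2,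
    Subtype.val_injective.comp e.injective, hs⟩, ?_, Sf, wrap _ ?_⟩
  · have h0 := hs.tendsto_atTop_zero
    have h1 : Tendsto (fun n => ‖Sf (e n)‖ ^ 2) atTop (𝓝 0) := by
      refine squeeze_zero' (Eventually.of_forall fun n => sq_nonneg _) ?_ h0
      filter_upwards [h0.eventually (gt_mem_nhds (by norm_num : (0:ℝ) < 1 / 2))] with n hn
      exact small (e n).2 (by linarith)
    rw [tendsto_zero_iff_norm_tendsto_zero]
    simpa using h1.sqrt
  · intro g hd hg hint
    have hW : ∀ w ∈ Z ∪ range t, g w = Sf w := by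
      intro w hw
      have := hint (e.symm ⟨w, hw⟩)
      simpa using this
    have := uniq_lambert (comp_psi hd) (fun s hs => hg _ (psi_mem hs)) (by
      intro s hs h0
      rw [hW (psi s) (Or.inl ⟨psi_mem hs, ?_⟩), Sf, phi_psi hs]
      have h1 := add_one_ne hs
      rw [u, Sf, phi_psi hs, psi]
      field_simp
      linear_combination 8 * h0) (by
      have h1 : psi 1 = t 0 := by simp [psi, t]
      rw [hW (psi 1) (Or.inr ⟨0, h1.symm⟩), Sf, phi_psi (by simp)])
    intro w hw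
    have h2 := this (phi w) (phi_pos hw)
    simpa only [psi_phi hw, Sf] using h2

end Pool.Agent.Results.MP_c109b8_an.Singular
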